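import Pool.Agent.Q289.KK.Stm

/-!
# Project KK: the top eigenvalue is Lipschitz and integrable
-/

set_option autoImplicit false
set_option linter.unusedSectionVars false

namespace Pool.Agent.Q144.KK

open MeasureTheory ProbabilityTheory Q289.KK

theorem abs_le_one {ι : Type} [Fintype ι] {v : ι → ℝ} (hv : dotProduct v v = 1) (i : ι) :
    |v i| ≤ 1 := by
  have h1 : v i * v i ≤ dotProduct v v :=
    Finset.single_le_sum (f := fun i => v i * v i) (fun j _ => mul_self_nonneg (v j))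
      (Finset.mem_univ i)
  rw [hv] at h1
  rw [abs_le]
  constructor <;> nlinarith

theorem quad_diff {ι : Type} [Fintype ι] (A B : Matrix ι ι ℝ) {v : ι → ℝ}
    (hv : dotProduct v v = 1) :
    dotProduct v (A.mulVec v) - dotProduct v (B.mulVec v) ≤ ∑ i, ∑ j, |A i j - B i j| := by
  have e : dotProduct v (A.mulVec v) - dotProduct v (B.mulVec v) =
      ∑ i, ∑ j, v i * ((A i j - B i j) * v j) := by
    simp only [dotProduct, Matrix.mulVec]
    rw [← Finset.sum_sub_distrib]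
    refine Finset.sum_congr rfl fun i _ => ?_
    rw [← mul_sub, ← Finset.sum_sub_distrib, Finset.mul_sum]
    refine Finset.sum_congr rfl fun j _ => ?_
    ring
  rw [e]
  refine Finset.sum_le_sum fun i _ => Finset.sum_le_sum fun j _ => ?_
  refine (le_abs_self _).trans ?_
  rw [abs_mul, abs_mul]
  have h1 := abs_le_one hv i
  have h2 := abs_le_one hv j
  have h3 := abs_nonneg (A i j - B i j)
  have h4 := abs_nonneg (v i)
  have h5 := abs_nonneg (v j)
  calc |v i| * (|A i j - B i j| * |v j|) ≤ 1 * (|A i j - B i j| * 1) := by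
        apply mul_le_mul h1 _ (by positivity) (by norm_num)
        exact mul_le_mul_of_nonneg_left h2 h3
    _ = |A i j - B i j| := by ring

theorem bdd {ι : Type} [Fintype ι] (A : Matrix ι ι ℝ) :
    BddAbove {t : ℝ | ∃ v : ι → ℝ, dotProduct v v = 1 ∧ t = dotProduct v (A.mulVec v)} := by
  refine ⟨∑ i, ∑ j, |A i j - (0 : Matrix ι ι ℝ) i j|, ?_⟩
  rintro _ ⟨v, hv, rfl⟩
  have := quad_diff A 0 hv
  rw [Matrix.zero_mulVec, dotProduct_zero, sub_zero] at this
  exact this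

theorem le_lmax {ι : Type} [Fintype ι] (A : Matrix ι ι ℝ) {v : ι → ℝ} (hv : dotProduct v v = 1) :
    dotProduct v (A.mulVec v) ≤ lmax A := le_csSup (bdd A) ⟨v, hv, rfl⟩

theorem lmax_le_add {ι : Type} [Fintype ι] (A B : Matrix ι ι ℝ) :
    lmax A ≤ lmax B + ∑ i, ∑ j, |A i j - B i j| := by
  have hD : 0 ≤ ∑ i, ∑ j, |A i j - B i j| :=
    Finset.sum_nonneg fun i _ => Finset.sum_nonneg fun j _ => abs_nonneg _
  rcases Set.eq_empty_or_nonempty
    {t : ℝ | ∃ v : ι → ℝ, dotProduct v v = 1 ∧ t = dotProduct v (A.mulVec v)} with h | h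
  · have h1 : lmax A = 0 := by
      unfold lmax
      rw [h, Real.sSup_empty]
    have h2 : {t : ℝ | ∃ v : ι → ℝ, dotProduct v v = 1 ∧ t = dotProduct v (B.mulVec v)} = ∅ := by
      rw [Set.eq_empty_iff_forall_notMem]
      rintro t ⟨v, hv, -⟩
      rw [Set.eq_empty_iff_forall_notMem] at h
      exact h _ ⟨v, hv, rfl⟩
    have h3 : lmax B = 0 := by
      unfold lmax
      rw [h2, Real.sSup_empty]
    rw [h1, h3]
    linarith
  · apply csSup_le h
    rintro _ ⟨v, hv, rfl⟩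
    have h1 := quad_diff A B hv
    have h2 := le_lmax B hv
    linarith

theorem lip (ι : Type) [Fintype ι] (A B : Matrix ι ι ℝ) :
    |lmax A - lmax B| ≤ ∑ i, ∑ j, |A i j - B i j| := by
  rw [abs_le]
  have h1 := lmax_le_add A B
  have h2 := lmax_le_add B A
  have h3 : ∑ i, ∑ j, |B i j - A i j| = ∑ i, ∑ j, |A i j - B i j| := by
    refine Finset.sum_congr rfl fun i _ => Finset.sum_congr rfl fun j _ => abs_sub_comm _ _
  rw [h3] at h2
  constructor <;> linarith

theorem W_diff {n r ℓ : ℕ} (lam : ℝ) (Z Z' : Finset (Fin n) → ℝ) (I J : Sb n ℓ) :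
    |W r ℓ lam Z I J - W r ℓ lam Z' I J| ≤ dist Z Z' := by
  unfold W
  rw [Matrix.of_apply, Matrix.of_apply]
  split_ifs
  · have e : lam + Z (symmDiff I.1 J.1) - (lam + Z' (symmDiff I.1 J.1)) =
        Z (symmDiff I.1 J.1) - Z' (symmDiff I.1 J.1) := by ring
    rw [e, ← Real.dist_eq]
    exact dist_le_pi_dist Z Z' _
  · rw [sub_zero, abs_zero]
    exact dist_nonneg

theorem lmax_cont {n r ℓ : ℕ} (lam : ℝ) :
    Continuous fun Z : Finset (Fin n) → ℝ => lmax (W r ℓ lam Z) := by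
  have : LipschitzWith (Real.toNNReal (∑ _I : Sb n ℓ, ∑ _J : Sb n ℓ, (1 : ℝ)))
      fun Z : Finset (Fin n) → ℝ => lmax (W r ℓ lam Z) := by
    apply LipschitzWith.of_dist_le_mul
    intro Z Z'
    rw [Real.dist_eq, Real.coe_toNNReal _ (Finset.sum_nonneg fun i _ =>
      Finset.sum_nonneg fun j _ => zero_le_one)]
    refine (lip _ _ _).trans ?_
    rw [Finset.sum_mul]
    refine Finset.sum_le_sum fun I _ => ?_
    rw [Finset.sum_mul]
    refine Finset.sum_le_sum fun J _ => ?_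
    rw [one_mul]
    exact W_diff lam Z Z' I J
  exact this.continuous

theorem coord_memLp {n : ℕ} (q : ℕ) (S : Finset (Fin n)) :
    MemLp (fun Z : Finset (Fin n) → ℝ => Z S) q (G n) := by
  have h1 : MemLp (id : ℝ → ℝ) q (gaussianReal 0 1) := by
    exact_mod_cast memLp_id_gaussianReal (μ := 0) (v := 1) (q : NNReal)
  exact h1.comp_measurePreserving
    (measurePreserving_eval (fun _ : Finset (Fin n) => gaussianReal 0 1) S)

theorem W_abs {n r ℓ : ℕ} (lam : ℝ) (Z : Finset (Fin n) → ℝ) (I J : Sb n ℓ) :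
    |W r ℓ lam Z I J| ≤ |lam| + |Z (symmDiff I.1 J.1)| := by
  unfold W
  rw [Matrix.of_apply]
  split_ifs
  · exact abs_add_le _ _
  · rw [abs_zero]
    positivity

theorem lmax_memLp (n r ℓ : ℕ) (lam : ℝ) (q : ℕ) :
    MemLp (fun Z => lmax (W r ℓ lam Z)) q (G n) := by
  have h0 : MemLp (fun Z : Finset (Fin n) → ℝ =>
      ∑ I : Sb n ℓ, ∑ J : Sb n ℓ, (|lam| + |Z (symmDiff I.1 J.1)|)) q (G n) := by
    refine memLp_finsetSum _ fun I _ => memLp_finsetSum _ fun J _ => ?_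
    have hc : MemLp (fun _ : Finset (Fin n) → ℝ => |lam|) q (G n) := memLp_const _
    exact hc.add (coord_memLp q (symmDiff I.1 J.1)).abs
  have hc : MemLp (fun _ : Finset (Fin n) → ℝ => |lmax (0 : Matrix (Sb n ℓ) (Sb n ℓ) ℝ)|) q
      (G n) := memLp_const _
  have hb := hc.add h0
  refine hb.mono' (lmax_cont lam).aestronglyMeasurable (Filter.Eventually.of_forall fun Z => ?_)
  rw [Real.norm_eq_abs]
  have h1 := lip _ (W r ℓ lam Z) 0
  have h2 : ∑ I : Sb n ℓ, ∑ J : Sb n ℓ, |W r ℓ lam Z I J - (0 : Matrix (Sb n ℓ) (Sb n ℓ) ℝ) I J| ≤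
      ∑ I : Sb n ℓ, ∑ J : Sb n ℓ, (|lam| + |Z (symmDiff I.1 J.1)|) := by
    refine Finset.sum_le_sum fun I _ => Finset.sum_le_sum fun J _ => ?_
    rw [Matrix.zero_apply, sub_zero]
    exact W_abs lam Z I J
  have h3 := abs_sub_abs_le_abs_sub (lmax (W r ℓ lam Z)) (lmax (0 : Matrix (Sb n ℓ) (Sb n ℓ) ℝ))
  show |lmax (W r ℓ lam Z)| ≤ |lmax (0 : Matrix (Sb n ℓ) (Sb n ℓ) ℝ)| +
    ∑ I : Sb n ℓ, ∑ J : Sb n ℓ, (|lam| + |Z (symmDiff I.1 J.1)|)
  linarith

/-- The top eigenvalue is integrable and Lipschitz. -/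
theorem int : IntStm :=
  ⟨fun ι _ _ A B => lip ι A B, lmax_memLp⟩

end Pool.Agent.Q144.KK
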