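import Pool.Agent.Q144.KK.Int

/-!
# Project KK: lower bounds of the expected top eigenvalue
-/

set_option autoImplicit false
set_option linter.unusedSectionVars false

namespace Pool.Agent.Q144.KK

open MeasureTheory ProbabilityTheory Q289.KK

theorem coord_int {n : ℕ} (S : Finset (Fin n)) :
    Integrable (fun Z : Finset (Fin n) → ℝ => Z S) (G n) := by
  have := coord_memLp (n := n) 1 S
  rw [Nat.cast_one, memLp_one_iff_integrable] at this
  exact this

theorem coord_mean {n : ℕ} (S : Finset (Fin n)) : ∫ Z, Z S ∂(G n) = 0 := by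
  have h := (measurePreserving_eval (fun _ : Finset (Fin n) => gaussianReal 0 1) S)
  have h1 : ∫ x : ℝ, x ∂(gaussianReal 0 1) = 0 := integral_id_gaussianReal
  rw [← h1, ← h.map_eq, integral_map (measurable_pi_apply S).aemeasurable (by fun_prop)]

theorem coord_abs {n : ℕ} (S : Finset (Fin n)) :
    ∫ Z, |Z S| ∂(G n) = ∫ x : ℝ, |x| ∂(gaussianReal 0 1) := by
  have h := (measurePreserving_eval (fun _ : Finset (Fin n) => gaussianReal 0 1) S)
  rw [← h.map_eq, integral_map (measurable_pi_apply S).aemeasurable (by fun_prop)]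

theorem lmax_int (h : IntStm) (n r ℓ : ℕ) (lam : ℝ) :
    Integrable (fun Z => lmax (W r ℓ lam Z)) (G n) := by
  have := h.2 n r ℓ lam 1
  rw [Nat.cast_one, memLp_one_iff_integrable] at this
  exact this

theorem card_pos {n ℓ : ℕ} (h : ℓ ≤ n) : 0 < Fintype.card (Sb n ℓ) := by
  rw [Fintype.card_pos_iff]
  obtain ⟨s, _, hs⟩ := Finset.exists_subset_card_eq
    (s := (Finset.univ : Finset (Fin n))) (n := ℓ) (by simpa using h)
  exact ⟨⟨s, hs⟩⟩

theorem low (h : IntStm) (hc : CardStm) : LowStm := by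
  intro n ℓ k lam hk hℓ
  have hN := card_pos hℓ
  set N := Fintype.card (Sb n ℓ) with hNdef
  have hN' : (0 : ℝ) < N := by exact_mod_cast hN
  let v : Sb n ℓ → ℝ := fun _ => 1 / √(N : ℝ)
  have hsq : 1 / √(N : ℝ) * (1 / √(N : ℝ)) = 1 / N := by
    rw [div_mul_div_comm, one_mul, Real.mul_self_sqrt hN'.le]
  have hv : dotProduct v v = 1 := by
    show ∑ _i : Sb n ℓ, 1 / √(N : ℝ) * (1 / √(N : ℝ)) = 1
    rw [Finset.sum_const, Finset.card_univ, hsq, nsmul_eq_mul, ← hNdef]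
    field_simp
  have hR : ∀ Z : Finset (Fin n) → ℝ, dotProduct v ((W (2 * k) ℓ lam Z).mulVec v) =
      (1 / N) * ∑ I : Sb n ℓ, ∑ J ∈ nb (2 * k) I, (lam + Z (symmDiff I.1 J.1)) := by
    intro Z
    simp only [dotProduct, Matrix.mulVec]
    rw [Finset.mul_sum]
    refine Finset.sum_congr rfl fun I _ => ?_
    rw [← Finset.sum_mul]
    show 1 / √(N : ℝ) * ((∑ J, W (2 * k) ℓ lam Z I J) * (1 / √(N : ℝ))) = _
    rw [mul_comm (∑ J, W (2 * k) ℓ lam Z I J), ← mul_assoc, hsq]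
    congr 1
    unfold W nb
    rw [Finset.sum_filter]
    rfl
  have hle : ∀ Z : Finset (Fin n) → ℝ,
      (1 / N) * ∑ I : Sb n ℓ, ∑ J ∈ nb (2 * k) I, (lam + Z (symmDiff I.1 J.1)) ≤
        lmax (W (2 * k) ℓ lam Z) := by
    intro Z
    rw [← hR]
    exact le_lmax _ hv
  have hi1 : ∀ I J : Sb n ℓ, Integrable (fun Z : Finset (Fin n) → ℝ =>
      lam + Z (symmDiff I.1 J.1)) (G n) := fun I J => (integrable_const _).add (coord_int _)
  have hi2 : ∀ I : Sb n ℓ, Integrable (fun Z : Finset (Fin n) → ℝ =>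
      ∑ J ∈ nb (2 * k) I, (lam + Z (symmDiff I.1 J.1))) (G n) := fun I =>
    integrable_finsetSum _ fun J _ => hi1 I J
  have hi3 : Integrable (fun Z : Finset (Fin n) → ℝ =>
      (1 / (N : ℝ)) * ∑ I : Sb n ℓ, ∑ J ∈ nb (2 * k) I, (lam + Z (symmDiff I.1 J.1))) (G n) :=
    (integrable_finsetSum _ fun I _ => hi2 I).const_mul _
  have h1 := integral_mono hi3 (lmax_int h n (2 * k) ℓ lam) hle
  refine le_trans (le_of_eq ?_) h1
  rw [integral_const_mul, integral_finsetSum _ fun I _ => hi2 I]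
  have h2 : ∀ I : Sb n ℓ, ∫ Z, ∑ J ∈ nb (2 * k) I, (lam + Z (symmDiff I.1 J.1)) ∂(G n) =
      dg n ℓ k * lam := by
    intro I
    rw [integral_finsetSum _ fun J _ => hi1 I J]
    have h3 : ∀ J ∈ nb (2 * k) I, ∫ Z, (lam + Z (symmDiff I.1 J.1)) ∂(G n) = lam := by
      intro J _
      rw [integral_add (integrable_const _) (coord_int _), coord_mean, add_zero, integral_const]
      simp
    rw [Finset.sum_congr rfl h3, Finset.sum_const, hc n ℓ k I, nsmul_eq_mul]
  rw [Finset.sum_congr rfl (fun I _ => h2 I), Finset.sum_const, Finset.card_univ, ← hNdef,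
    nsmul_eq_mul]
  field_simp

theorem integral_abs_gaussianReal :
    ∫ x : ℝ, |x| ∂(gaussianReal 0 1) = Real.sqrt (2 / Real.pi) := by
  rw [integral_gaussianReal_eq_integral_smul (by norm_num)]
  have h1 : ∀ x : ℝ, gaussianPDFReal 0 1 x • |x| =
      (Real.sqrt (2 * Real.pi))⁻¹ * (|x| * Real.exp (-(1 / 2) * |x| ^ 2)) := by
    intro x
    simp only [gaussianPDFReal, smul_eq_mul, NNReal.coe_one, mul_one, sub_zero, sq_abs]
    rw [show -x ^ 2 / 2 = -(1 / 2) * x ^ 2 by ring]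
    ring
  simp only [h1]
  rw [integral_const_mul, integral_comp_abs (f := fun x : ℝ => x * Real.exp (-(1 / 2) * x ^ 2))]
  have h := _root_.integral_rpow_mul_exp_neg_mul_rpow (p := 2) (q := 1) (b := 1 / 2)
      (by norm_num) (by norm_num) (by norm_num)
  have e3 : ∀ r ∈ Set.Ioi (0 : ℝ), r * Real.exp (-(1 / 2) * r ^ 2) =
      (r ^ (1 : ℝ) * Real.exp (-(1 / 2) * r ^ (2 : ℝ))) := by
    intro r _
    rw [Real.rpow_one, Real.rpow_two]
  rw [setIntegral_congr_fun measurableSet_Ioi e3, h]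
  norm_num
  have hpi := Real.pi_pos
  have hs : Real.sqrt Real.pi ≠ 0 := (Real.sqrt_pos.mpr hpi).ne'
  have h2 : Real.sqrt 2 * Real.sqrt 2 = 2 := Real.mul_self_sqrt (by norm_num)
  have h3 : Real.sqrt 2 ≠ 0 := by positivity
  field_simp
  rw [pow_two, h2]

theorem half_le_abs : (1 / 2 : ℝ) ≤ ∫ x : ℝ, |x| ∂(gaussianReal 0 1) := by
  rw [integral_abs_gaussianReal]
  apply Real.le_sqrt_of_sq_le
  rw [le_div_iff₀ Real.pi_pos]
  have := Real.pi_lt_d2
  nlinarith

theorem W_neg {n r ℓ : ℕ} (Z : Finset (Fin n) → ℝ) :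
    W (ℓ := ℓ) r 0 (-Z) = -W (ℓ := ℓ) r 0 Z := by
  ext I J
  unfold W
  rw [Matrix.neg_apply, Matrix.of_apply, Matrix.of_apply]
  split_ifs
  · rw [Pi.neg_apply]; ring
  · rw [neg_zero]

end Pool.Agent.Q144.KK
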