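import Pool.Agent.Q144.KK.Low

/-!
# Project KK: lower bound of the expected top eigenvalue at zero signal
-/

set_option autoImplicit false
set_option linter.unusedSectionVars false

namespace Pool.Agent.Q144.KK

open MeasureTheory ProbabilityTheory Q289.KK

theorem neg_pres (n : ℕ) : MeasurePreserving (fun Z : Finset (Fin n) → ℝ => -Z) (G n) (G n) := by
  have h1 : MeasurePreserving (fun x : ℝ => -x) (gaussianReal 0 1) (gaussianReal 0 1) :=
    ⟨measurable_neg, by rw [gaussianReal_map_neg, neg_zero]⟩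
  exact measurePreserving_pi (fun _ : Finset (Fin n) => gaussianReal 0 1)
    (fun _ : Finset (Fin n) => gaussianReal 0 1) (fun _ => h1)

theorem int_neg (n r ℓ : ℕ) :
    ∫ Z, lmax (-W (ℓ := ℓ) r 0 Z) ∂(G n) = E n r ℓ 0 := by
  have h := neg_pres n
  unfold E
  conv_rhs => rw [← h.map_eq]
  rw [integral_map h.measurable.aemeasurable (lmax_cont 0).aestronglyMeasurable]
  refine integral_congr_ae (Filter.Eventually.of_forall fun Z => ?_)
  show lmax (-W (ℓ := ℓ) r 0 Z) = lmax (W (ℓ := ℓ) r 0 (-Z))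
  rw [W_neg]

theorem W_symm {n r ℓ : ℕ} (lam : ℝ) (Z : Finset (Fin n) → ℝ) (I J : Sb n ℓ) :
    W r ℓ lam Z I J = W r ℓ lam Z J I := by
  unfold W
  rw [Matrix.of_apply, Matrix.of_apply, symmDiff_comm]

theorem W_diag {n k ℓ : ℕ} (hk : 1 ≤ k) (lam : ℝ) (Z : Finset (Fin n) → ℝ) (I : Sb n ℓ) :
    W (2 * k) ℓ lam Z I I = 0 := by
  unfold W
  rw [Matrix.of_apply, symmDiff_self, if_neg]
  show ¬ (∅ : Finset (Fin n)).card = 2 * k
  rw [Finset.card_empty]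
  omega

theorem lmax_nonneg {ι : Type} [Fintype ι] (M : Matrix ι ι ℝ) (i : ι) (h : M i i = 0) :
    0 ≤ lmax M := by
  classical
  have hv : dotProduct (Pi.single i 1 : ι → ℝ) (Pi.single i 1) = 1 := by
    rw [dotProduct_single, Pi.single_eq_same, mul_one]
  have := le_lmax M hv
  rwa [Matrix.mulVec_single_one, single_dotProduct, one_mul, Matrix.col_apply, h] at this

/-- the pointwise bound -/
theorem pointwise (hs : SpecStm) (hc : CardStm) {n ℓ k : ℕ} (hk : 1 ≤ k) (hℓ : ℓ ≤ n)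
    (Z : Finset (Fin n) → ℝ) :
    ∑ I : Sb n ℓ, ∑ J ∈ nb (2 * k) I, |Z (symmDiff I.1 J.1)| ≤
      Fintype.card (Sb n ℓ) * √(dg n ℓ k : ℝ) *
        (lmax (W (2 * k) ℓ 0 Z) + lmax (-W (2 * k) ℓ 0 Z)) := by
  classical
  have hN := card_pos hℓ
  obtain ⟨I0⟩ := Fintype.card_pos_iff.1 hN
  set N := Fintype.card (Sb n ℓ) with hNdef
  set M : Matrix (Sb n ℓ) (Sb n ℓ) ℝ := W (2 * k) ℓ 0 Z with hM
  have hsymm : M.IsSymm := Matrix.IsSymm.ext fun I J => (W_symm 0 Z J I)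
  obtain ⟨lam, h1, h2, h3, -⟩ := hs (Sb n ℓ) M hsymm
  have hp : 0 ≤ lmax M := lmax_nonneg M I0 (W_diag hk 0 Z I0)
  have hm0 : M I0 I0 = 0 := W_diag hk 0 Z I0
  have hm : 0 ≤ lmax (-M) := lmax_nonneg (-M) I0 (by
    rw [Matrix.neg_apply, hm0, neg_zero])
  set s := lmax M + lmax (-M) with hsdef
  have hs0 : 0 ≤ s := add_nonneg hp hm
  have hlam : ∀ i, lam i ^ 2 ≤ s ^ 2 := by
    intro i
    have e1 := h1 i
    have e2 := h2 i
    apply sq_le_sq'
    · linarith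
    · linarith
  have htr : (M ^ 2).trace ≤ N * s ^ 2 := by
    rw [h3 2]
    refine (Finset.sum_le_sum fun i _ => hlam i).trans (le_of_eq ?_)
    rw [Finset.sum_const, Finset.card_univ, nsmul_eq_mul]
  have htr2 : (M ^ 2).trace = ∑ I : Sb n ℓ, ∑ J ∈ nb (2 * k) I, |Z (symmDiff I.1 J.1)| ^ 2 := by
    rw [Matrix.trace, pow_two]
    refine Finset.sum_congr rfl fun I _ => ?_
    rw [Matrix.diag_apply, Matrix.mul_apply]
    unfold nb
    rw [Finset.sum_filter]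
    refine Finset.sum_congr rfl fun J _ => ?_
    rw [hM, W_symm 0 Z J I]
    unfold W
    rw [Matrix.of_apply]
    split_ifs
    · rw [zero_add, sq_abs, sq]
    · rw [mul_zero]
  have hcs : (∑ I : Sb n ℓ, ∑ J ∈ nb (2 * k) I, |Z (symmDiff I.1 J.1)|) ^ 2 ≤
      N * (dg n ℓ k * ∑ I : Sb n ℓ, ∑ J ∈ nb (2 * k) I, |Z (symmDiff I.1 J.1)| ^ 2) := by
    refine (sq_sum_le_card_mul_sum_sq (s := Finset.univ)
      (f := fun I : Sb n ℓ => ∑ J ∈ nb (2 * k) I, |Z (symmDiff I.1 J.1)|)).trans ?_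
    rw [Finset.card_univ, ← hNdef]
    apply mul_le_mul_of_nonneg_left _ (Nat.cast_nonneg _)
    rw [Finset.mul_sum]
    refine Finset.sum_le_sum fun I _ => ?_
    have := sq_sum_le_card_mul_sum_sq (s := nb (2 * k) I)
      (f := fun J : Sb n ℓ => |Z (symmDiff I.1 J.1)|)
    rwa [hc n ℓ k I] at this
  rw [← htr2] at hcs
  have hd0 : (0 : ℝ) ≤ dg n ℓ k := Nat.cast_nonneg _
  have h4 : (∑ I : Sb n ℓ, ∑ J ∈ nb (2 * k) I, |Z (symmDiff I.1 J.1)|) ^ 2 ≤
      (N * √(dg n ℓ k : ℝ) * s) ^ 2 := by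
    refine hcs.trans ?_
    have h5 : (N : ℝ) * (dg n ℓ k * (M ^ 2).trace) ≤ N * (dg n ℓ k * (N * s ^ 2)) :=
      mul_le_mul_of_nonneg_left (mul_le_mul_of_nonneg_left htr hd0) (Nat.cast_nonneg _)
    refine h5.trans (le_of_eq ?_)
    rw [mul_pow, mul_pow, Real.sq_sqrt hd0]
    ring
  exact le_of_sq_le_sq h4 (by positivity)

theorem sq (hs : SpecStm) (hi : IntStm) (hc : CardStm) : SqStm := by
  intro n ℓ k hk hkℓ hn
  have hℓ : ℓ ≤ n := by omega
  have hN := card_pos hℓ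
  have hN' : (0 : ℝ) < Fintype.card (Sb n ℓ) := by exact_mod_cast hN
  have hd : 0 < dg n ℓ k := by
    unfold dg
    exact Nat.mul_pos (Nat.choose_pos hkℓ) (Nat.choose_pos (by omega))
  have hd' : (0 : ℝ) < dg n ℓ k := by exact_mod_cast hd
  have hsq : 0 < √(dg n ℓ k : ℝ) := Real.sqrt_pos.2 hd'
  have hi1 : ∀ S : Finset (Fin n), Integrable (fun Z : Finset (Fin n) → ℝ => |Z S|) (G n) :=
    fun S => (coord_int S).abs
  have hi2 : ∀ I : Sb n ℓ, Integrable (fun Z : Finset (Fin n) → ℝ =>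
      ∑ J ∈ nb (2 * k) I, |Z (symmDiff I.1 J.1)|) (G n) := fun I =>
    integrable_finsetSum _ fun J _ => hi1 _
  have hL := lmax_int hi n (2 * k) ℓ 0
  have hL2 : Integrable (fun Z => lmax (-W (2 * k) ℓ 0 Z)) (G n) := by
    have h := neg_pres n
    have := h.integrable_comp_of_integrable hL
    refine this.congr (Filter.Eventually.of_forall fun Z => ?_)
    show lmax (W (ℓ := ℓ) (2 * k) 0 (-Z)) = _
    rw [W_neg]
  have h1 := integral_mono (integrable_finsetSum Finset.univ fun I _ => hi2 I)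
    ((hL.add hL2).const_mul ((Fintype.card (Sb n ℓ) : ℝ) * √(dg n ℓ k : ℝ)))
    (fun Z => pointwise hs hc hk hℓ Z)
  rw [integral_const_mul, integral_add' hL hL2, int_neg,
    integral_finsetSum _ fun I _ => hi2 I] at h1
  have h2 : ∀ I : Sb n ℓ, ∫ Z, ∑ J ∈ nb (2 * k) I, |Z (symmDiff I.1 J.1)| ∂(G n) =
      dg n ℓ k * ∫ x : ℝ, |x| ∂(gaussianReal 0 1) := by
    intro I
    rw [integral_finsetSum _ fun J _ => hi1 _, Finset.sum_congr rfl (fun J _ => coord_abs _),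
      Finset.sum_const, hc n ℓ k I, nsmul_eq_mul]
  rw [Finset.sum_congr rfl (fun I _ => h2 I), Finset.sum_const, Finset.card_univ,
    nsmul_eq_mul] at h1
  have h3 := half_le_abs
  set m := ∫ x : ℝ, |x| ∂(gaussianReal 0 1)
  have h4 : ∫ Z, lmax (W (2 * k) ℓ 0 Z) ∂(G n) = E n (2 * k) ℓ 0 := rfl
  rw [h4] at h1
  have h5 : (dg n ℓ k : ℝ) * m ≤ √(dg n ℓ k : ℝ) * (2 * E n (2 * k) ℓ 0) := by
    have h6 : (Fintype.card (Sb n ℓ) : ℝ) * (dg n ℓ k * m) ≤
        Fintype.card (Sb n ℓ) * (√(dg n ℓ k : ℝ) * (2 * E n (2 * k) ℓ 0)) := by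
      refine h1.trans (le_of_eq ?_)
      ring
    exact le_of_mul_le_mul_left h6 hN'
  have h7 : (dg n ℓ k : ℝ) = √(dg n ℓ k : ℝ) * √(dg n ℓ k : ℝ) := (Real.mul_self_sqrt hd'.le).symm
  have h8 : √(dg n ℓ k : ℝ) * (√(dg n ℓ k : ℝ) * m) ≤
      √(dg n ℓ k : ℝ) * (2 * E n (2 * k) ℓ 0) := by
    rw [← mul_assoc, ← h7]
    exact h5
  have h9 := le_of_mul_le_mul_left h8 hsq
  nlinarith

end Pool.Agent.Q144.KK
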